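import Mathlib
import Pool.Agent.R298.CC.Main

/-!
Coupling constants of Kadison–Kastler close II₁ factors.

The definitions used are in `Pool.Agent.R298.CC.Defs` (`kkDist`, `IsModFamily`, `IsTotal`, `dimM`)
and in `Pool.Agent.Helper278.DefsG` (`IsIIOneFactor`).
-/

set_option autoImplicit false

open scoped InnerProductSpace ENNReal

namespace Pool.Agent.Results.MP_41729c_an.Coupling

open Pool.Agent.Helper278 Pool.Agent.R298.CC

/-- (1) The dimension `dimM M τ` is computed by every decomposition `H ≅ ⨁ L²(M, τ) p_i` of the left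
`M`-module `H`. (2) There is a universal `δ > 0` such that II₁ factors `M`, `N` on a Hilbert space
with Kadison–Kastler distance less than `δ` have the same coupling constant. -/
theorem result :
    (∀ (H : Type) [NormedAddCommGroup H] [InnerProductSpace ℂ H] [CompleteSpace H]
      (M : VonNeumannAlgebra H) (τ : Elt M → ℂ), IsIIOneFactor M τ →
      ∀ (ι : Type) (ξ : ι → H) (p : ι → Elt M), IsModFamily M τ ξ p → IsTotal M ξ →
        dimM M τ = ∑' i, ENNReal.ofReal (τ (p i)).re) ∧
    ∃ δ : ℝ, 0 < δ ∧ ∀ (H : Type) [NormedAddCommGroup H] [InnerProductSpace ℂ H]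
      [CompleteSpace H] (M N : VonNeumannAlgebra H) (τM : Elt M → ℂ) (τN : Elt N → ℂ),
      IsIIOneFactor M τM → IsIIOneFactor N τN → kkDist M N < δ → dimM M τM = dimM N τN := by
  refine ⟨?_, main⟩
  intro H _ _ _ M τ hM ι ξ p h ht
  exact dimM_eq_tsum (mkState M τ hM.normal hM.trace) ξ p h ht

end Pool.Agent.Results.MP_41729c_an.Coupling
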